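import Pool.Agent.RRG.Final

/-!
# Smooth flexible affine varieties and RR-spaces
-/

set_option autoImplicit false

open Pool.Agent.RRG

/-- Let `X = V(I)` be a smooth flexible complex affine variety of dimension `n ≥ 2`. If `n = 2`, or
`X` carries a nontrivial `sl₂`-pair of locally nilpotent derivations (infinitesimal form of a
nontrivial algebraic `SL₂`-action), or the coordinate ring is generated by the kernels of the
nonzero locally nilpotent derivations, then `X` is an `RR`-space. -/
theorem Pool.Agent.Results.MP_38183b_an.FlexibleVarieties.result (N : ℕ)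
    (I : Ideal (MvPolynomial (Fin N) ℂ)) (hprime : I.IsPrime) (n : ℕ) (hn : 2 ≤ n)
    (hsmooth : IsSmoothOfDim I n) (hflex : IsFlexible I)
    (h : n = 2 ∨ HasSl2Pair I ∨ IsGeneratedByKernels I) : IsRRSpace (variety I) :=
  isRRSpace_final I hprime n hn hsmooth hflex h
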